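import Mathlib
import Pool.Agent.N990.EJ.Stm

/-!
# EJ/UNI: uniqueness of the joint law of couplings and spins
-/

set_option autoImplicit false

open MeasureTheory ProbabilityTheory
open Pool.Agent.N988.EA Pool.Agent.N990.EJ

namespace Pool.Agent.N409.EJ

/-- the cylinder sets over `H n` -/
def cyl (p : ℕ → Fin 2 × Bool) (n : ℕ) (s : Pt 2 n → Bool) : Set (VInf p → Bool) :=
  {σ | (fun x => σ (inc p n x)) = s}

/-- all cylinder sets -/
def cyls (p : ℕ → Fin 2 × Bool) : Set (Set (VInf p → Bool)) := {A | ∃ n s, A = cyl p n s}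

theorem meas_cyl (p : ℕ → Fin 2 × Bool) (n : ℕ) (s : Pt 2 n → Bool) :
    MeasurableSet (cyl p n s) := by
  have h1 : Measurable fun (σ : VInf p → Bool) (x : Pt 2 n) => σ (inc p n x) :=
    measurable_pi_lambda _ fun x => measurable_pi_apply _
  exact h1 (MeasurableSet.singleton s)

theorem inc_mono (p : ℕ → Fin 2 × Bool)
    (h : ∀ n x, inc p (n + 1) (emb (p n).1 (p n).2 x) = inc p n x) {n m : ℕ} (hnm : n ≤ m)
    (x : Pt 2 n) : ∃ y : Pt 2 m, inc p m y = inc p n x := by
  induction m, hnm using Nat.le_induction with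
  | base => exact ⟨x, rfl⟩
  | succ m _ ih =>
    obtain ⟨y, hy⟩ := ih
    exact ⟨emb (p m).1 (p m).2 y, (h m y).trans hy⟩

theorem cyl_sub (p : ℕ → Fin 2 × Bool)
    (h : ∀ n x, inc p (n + 1) (emb (p n).1 (p n).2 x) = inc p n x) {n m : ℕ} (hnm : n ≤ m)
    {s : Pt 2 n → Bool} {t : Pt 2 m → Bool} {σ0 : VInf p → Bool} (h1 : σ0 ∈ cyl p n s)
    (h2 : σ0 ∈ cyl p m t) : cyl p m t ⊆ cyl p n s := by
  intro σ hσ
  have h1' : (fun x => σ0 (inc p n x)) = s := h1
  have h2' : (fun x => σ0 (inc p m x)) = t := h2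
  have hσ' : (fun x => σ (inc p m x)) = t := hσ
  change (fun x => σ (inc p n x)) = s
  rw [← h1']
  funext x
  obtain ⟨y, hy⟩ := inc_mono p h hnm x
  rw [← hy]
  exact congrFun (hσ'.trans h2'.symm) y

theorem pi_cyls (p : ℕ → Fin 2 × Bool)
    (h : ∀ n x, inc p (n + 1) (emb (p n).1 (p n).2 x) = inc p n x) : IsPiSystem (cyls p) := by
  rintro _ ⟨n, s, rfl⟩ _ ⟨m, t, rfl⟩ ⟨σ0, h1, h2⟩
  rcases le_total n m with hnm | hmn
  · rw [Set.inter_eq_self_of_subset_right (cyl_sub p h hnm h1 h2)]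
    exact ⟨m, t, rfl⟩
  · rw [Set.inter_eq_self_of_subset_left (cyl_sub p h hmn h2 h1)]
    exact ⟨n, s, rfl⟩

theorem gen_cyls (p : ℕ → Fin 2 × Bool) (h : ∀ v, ∃ n x, inc p n x = v) :
    (MeasurableSpace.pi : MeasurableSpace (VInf p → Bool)) =
      MeasurableSpace.generateFrom (cyls p) := by
  apply le_antisymm
  · refine iSup_le fun v => ?_
    rw [← measurable_iff_comap_le]
    intro B _
    obtain ⟨n, x, hx⟩ := h v
    have e : (fun σ : VInf p → Bool => σ v) ⁻¹' B =
        ⋃ s ∈ {s : Pt 2 n → Bool | s x ∈ B}, cyl p n s := by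
      ext σ
      simp only [Set.mem_preimage, Set.mem_iUnion]
      constructor
      · intro hσ
        refine ⟨fun x => σ (inc p n x), ?_, rfl⟩
        change σ (inc p n x) ∈ B
        rw [hx]
        exact hσ
      · rintro ⟨s, hs, hσ⟩
        have h3 : (fun x => σ (inc p n x)) = s := hσ
        have h4 : σ (inc p n x) = s x := congrFun h3 x
        rw [hx] at h4
        rw [h4]
        exact hs
    rw [e]
    refine MeasurableSet.biUnion (Set.to_countable _) fun s _ => ?_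
    exact MeasurableSpace.measurableSet_generateFrom ⟨n, s, rfl⟩
  · refine MeasurableSpace.generateFrom_le ?_
    rintro _ ⟨n, s, rfl⟩
    exact meas_cyl p n s

theorem ext_cyl (p : ℕ → Fin 2 × Bool)
    (h : ∀ n x, inc p (n + 1) (emb (p n).1 (p n).2 x) = inc p n x)
    (h' : ∀ v, ∃ n x, inc p n x = v) (ν ν' : Measure (VInf p → Bool)) [IsProbabilityMeasure ν]
    [IsProbabilityMeasure ν'] (he : ∀ n s, ν.real (cyl p n s) = ν'.real (cyl p n s)) : ν = ν' := by
  refine ext_of_generate_finite (cyls p) (gen_cyls p h') (pi_cyls p h) ?_ (by simp)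
  rintro _ ⟨n, s, rfl⟩
  exact (ENNReal.toReal_eq_toReal_iff' (measure_ne_top _ _) (measure_ne_top _ _)).1 (he n s)

theorem t_uni (h1 : S_DIS) (h2 : S_GEO) : S_UNI := by
  intro μ _ β p hU ρ ρ' hρ hρ'
  obtain ⟨hc, -, g3, -, g5, -⟩ := h2 p
  have fin : ∀ r : Measure ((EdgeInf 2 p → ℝ) × (VInf p → Bool)), IsEA μ β p r →
      IsProbabilityMeasure r := by
    intro r hr
    constructor
    have e := congrArg (fun m => m Set.univ) hr.couplings
    simp only [measure_univ] at e
    rw [Measure.map_apply measurable_fst MeasurableSet.univ, Set.preimage_univ] at e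
    exact e
  have i1 := fin ρ hρ
  have i2 := fin ρ' hρ'
  have d1 := h1 μ β p ρ hρ
  have d2 := h1 μ β p ρ' hρ'
  have f1 : ρ.fst = Measure.infinitePi fun _ : EdgeInf 2 p => μ := hρ.couplings
  have f2 : ρ'.fst = Measure.infinitePi fun _ : EdgeInf 2 p => μ := hρ'.couplings
  have key : ρ.condKernel =ᵐ[Measure.infinitePi fun _ : EdgeInf 2 p => μ] ρ'.condKernel := by
    filter_upwards [hU, d1, d2] with w hw a1 a2
    refine ext_cyl p g3 g5 _ _ fun n s => ?_
    exact congrFun (congrFun (hw.unique a1 a2) n) s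
  have e1 := ρ.disintegrate ρ.condKernel
  have e2 := ρ'.disintegrate ρ'.condKernel
  rw [f1] at e1
  rw [f2] at e2
  rw [← e1, ← e2]
  exact Measure.compProd_congr key

end Pool.Agent.N409.EJ
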